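import Pool.Agent.H80.Gs5

set_option autoImplicit false

open MeasureTheory ProbabilityTheory Pool.Agent.H80.GsD

theorem Pool.Agent.Results.MP_681294_gt.Yes.result :
    ∃ r : ℝ → ℝ, StrictMonoOn r (Set.Ioo 0 1) ∧ (∀ p ∈ Set.Ioo (0 : ℝ) 1, 0 < r p) ∧
      ∀ (n : ℕ), 2 ≤ n → ∀ K : Set (EuclideanSpace ℝ (Fin n)), IsClosed K → Convex ℝ K →
        0 < (stdGaussian (EuclideanSpace ℝ (Fin n))).real K →
        (stdGaussian (EuclideanSpace ℝ (Fin n))).real K < 1 →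
        ∀ u : EuclideanSpace ℝ (Fin n), ‖u‖ ≤ r ((stdGaussian (EuclideanSpace ℝ (Fin n))).real K) →
          stdGaussian (EuclideanSpace ℝ (Fin n)) K ≤
            stdGaussian (EuclideanSpace ℝ (Fin n)) (circ K u) := by
  obtain ⟨r, h1, h2, h3⟩ := Pool.Agent.H80.Gs.main1
  exact ⟨r, h1, h2, fun n _ K hK hc h0 h4 => h3 n K hK hc ⟨h0, h4⟩⟩
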